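import Pool.Agent.Q1.BE.TfaeD

set_option autoImplicit false

/-!
# Algebroid curves of bounded degree and curves of bounded gonality

Let `X` be the closed set in complex projective `n`-space given by a set `S` of forms of degree at
most `D`, and let `G` be a form of degree at most `D`.

We consider branches of algebroid curves on `X` with at most `d` values: for `z` in a connected open
set `Ω` of the complex plane let `Pol (x z)` be a monic polynomial of degree `d`, `α(z)` an analytic
function on `Ω` which is a root of it, and `Num (x z) (α z)` the point whose `n + 1` homogeneous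
coordinates are values of polynomials of degree less than `d` at `α(z)`; the coefficients of these
`n + 2` polynomials are the components of the vector `x(z)`.  `DFam Ω s r e x` says that `x` is given
by iterated linear differential equations: there are invertible matrices `X_1, ..., X_s` of size `r`
of analytic functions on `Ω` such that the entries of `X_l' X_l⁻¹` are values of polynomials with
complex coefficients of degree at most `e` in each variable at the entries of `X_i`, `X_i⁻¹`, `i < l`,
and the components of `x` are values of such polynomials at the entries of all these matrices (for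
instance polynomials in `z`, exponential functions, `exp (exp z)`, Airy functions).

The following are equivalent:

1. the curves of gonality at most `d` on `X` are in `G = 0`: all points of degree `d' ≤ d` over the
   field `ℂ(t)`, with coefficients in `ℂ[t]` of any degree, which are on `X` with all their
   conjugates and are not constant, are zeros of `G`;
2. for all `s`, `r`, `e` and `Ω` all nonconstant curves of the above kind on `X` are in `G = 0`;
3. the nonconstant curves of the above kind on `X` with one step, matrices of size `2` and `Ω` a disc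
   are in `G = 0`.
-/

namespace Pool.Agent.Results.MP_1209e6_ag.AlgebroidEquivalence

open MvPolynomial Metric Pool.Agent.Q1.BD

theorem result (n D d : ℕ) (S : Set (MvPolynomial (Fin (n + 1)) ℂ))
    (G : MvPolynomial (Fin (n + 1)) ℂ) (hS : ∀ F ∈ S, ∃ e, e ≤ D ∧ F.IsHomogeneous e)
    (hG : ∃ e, e ≤ D ∧ G.IsHomogeneous e) :
    List.TFAE [∀ δ, GonIn S G d δ,
      ∀ (s r e : ℕ) (Ω : Set ℂ), IsOpen Ω → IsPreconnected Ω →
        ∀ (x : ℂ → Jx n d → ℂ) (α : ℂ → ℂ), DFam Ω s r e x → AnalyticOnNhd ℂ α Ω →
        (∀ z ∈ Ω, (Pol (x z)).eval (α z) = 0) →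
        (∀ z ∈ Ω, ∀ F ∈ S, eval (Num (x z) (α z)) F = 0) →
        (∃ z ∈ Ω, ∃ w ∈ Ω, ∃ u v, Num (x z) (α z) u * Num (x w) (α w) v ≠
          Num (x z) (α z) v * Num (x w) (α w) u) →
          ∀ z ∈ Ω, eval (Num (x z) (α z)) G = 0,
      ∀ (e : ℕ) (z₀ : ℂ) (ρ : ℝ), 0 < ρ → ∀ (x : ℂ → Jx n d → ℂ) (α : ℂ → ℂ),
        DFam (ball z₀ ρ) 1 2 e x → AnalyticOnNhd ℂ α (ball z₀ ρ) →
        (∀ z ∈ ball z₀ ρ, (Pol (x z)).eval (α z) = 0) →
        (∀ z ∈ ball z₀ ρ, ∀ F ∈ S, eval (Num (x z) (α z)) F = 0) →
        (∃ z ∈ ball z₀ ρ, ∃ w ∈ ball z₀ ρ, ∃ u v, Num (x z) (α z) u * Num (x w) (α w) v ≠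
          Num (x z) (α z) v * Num (x w) (α w) u) →
          ∀ z ∈ ball z₀ ρ, eval (Num (x z) (α z)) G = 0] :=
  gon_tfae_curves n D d S G hS hG

end Pool.Agent.Results.MP_1209e6_ag.AlgebroidEquivalence
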