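import Pool.Agent.Q139.EG.Dom

set_option autoImplicit false

/-!
# Varieties dominated by a variety with a Zariski-dense curve given by linear differential equations

Let `X` be a complex projective variety with the ideal `p`, the generic point `y` and the function
field `K`, let `g = (g_0, ..., g_m)` be forms of the same degree, and let `Y` be the closure of the
image of `X` under the rational map given by `g`; its function field is `coords ℂ (g_i(y))` and its
dimension is `w'`. We consider curves given by `s` iterated linear differential equations with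
matrices of size `r` and polynomials of degree at most `e`, with coefficients in a ring `M` of
analytic functions (`MVec Ω M s r e f`: there are invertible matrices `X_1(z), ..., X_s(z)` of size
`r` of analytic functions on `Ω` such that the entries of `X_l'(z) X_l(z)⁻¹` are polynomials with
coefficients in `M`, of degree at most `e` in each variable, in the entries of `X_i(z)`, `X_i(z)⁻¹`,
`i < l`, and the coordinates of `f(z)` are such polynomials in the entries of all these matrices).

For all `s`, `r`, `e` there is `D` such that

(1) for all domains `Ω` and ALL rings `M` of analytic functions on `Ω` which contain the constants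
and are closed under differentiation, if a curve `f : Ω → X` with `MVec Ω M s r e f` is
Zariski-dense in `X`, then `Y` is covered by rational curves of degree at most `D`
(`CoveredDeg (ImForms p g) D`), or the ratios of the `g_i(f(z))` are algebraic of degree at most `D`
over `M`;

(2) if an entire curve `f : ℂ → X` is Zariski-dense in `X`, its composition `h` with `g` is not
constant, and `f` is given by `s` iterated linear differential equations with coefficients which are
meromorphic functions `a` on the plane such that `T(r, a^(k)) = o(T(r, h))` for all `k`, then `Y` is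
covered by rational curves of degree at most `D`;

(3) if an entire curve `f : ℂ → X` is Zariski-dense in `X` and is given by `s` iterated linear
differential equations with arbitrary elliptic functions for some lattice as coefficients, then `Y`
is covered by rational curves of degree at most `D` if `dim Y > 1`, and `Y` is not of general type if
`dim Y > 0`.
-/

namespace Pool.Agent.Results.MP_1209e6_ag.DominatedSmall

open Filter MvPolynomial Pool.Agent.TH143.EL Pool.Agent.Q139.EG
open scoped LinearAlgebra.Projectivization
open Pool.Agent.TH143.GT (FunField)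
open Pool.Agent.W602.GT (GeneralType coords)
open Pool.Agent.Q139.EB (ImForms CoveredDeg)

theorem result {N m : ℕ} (p : Ideal (MvPolynomial (Fin (N + 1)) ℂ)) (K : Type) [Field K]
    [Algebra ℂ K] (w : ℕ) (y : Fin (N + 1) → K) (hy : FunField p 1 K w y) (e1 : ℕ)
    (g : Fin (m + 1) → MvPolynomial (Fin (N + 1)) ℂ) (hg : ∀ i, (g i).IsHomogeneous e1) (w' : ℕ)
    (hw' : Algebra.trdeg ℂ (coords ℂ fun i => aeval y (g i)) = w') (s r e : ℕ) :
    ∃ D : ℕ,
      (∀ Ω : Set ℂ, IsOpen Ω → IsPreconnected Ω → ∀ M : Set (ℂ → ℂ), CRing Ω M →
        ∀ f : ℂ → Fin (N + 1) → ℂ, MVec Ω M s r e f →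
        (∀ G : MvPolynomial (Fin (N + 1)) ℂ, (∃ k, G.IsHomogeneous k) →
          (G ∈ p ↔ ∀ z ∈ Ω, eval (f z) G = 0)) →
        CoveredDeg (ImForms p g) D ∨ ∀ u v, AlgM Ω M D (fun z => eval (f z) (g u))
          fun z => eval (f z) (g v)) ∧
      (∀ f : ℂ → ℙ ℂ (Fin (N + 1) → ℂ), HolMap f →
        (∀ G : MvPolynomial (Fin (N + 1)) ℂ, (∃ k, G.IsHomogeneous k) →
          (G ∈ p ↔ ∀ z, eval (f z).rep G = 0)) →
        ∀ h : ℂ → ℙ ℂ (Fin (m + 1) → ℂ), IsComp g f h → (∃ z w, h z ≠ h w) →
          ClsCurve (SmallOn (TP h)) s r e f → CoveredDeg (ImForms p g) D) ∧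
      ∀ (L : PeriodPair) (f : ℂ → ℙ ℂ (Fin (N + 1) → ℂ)), HolMap f →
        (∀ G : MvPolynomial (Fin (N + 1)) ℂ, (∃ k, G.IsHomogeneous k) →
          (G ∈ p ↔ ∀ z, eval (f z).rep G = 0)) →
        ClsCurve (PerOn L.lattice.toAddSubgroup) s r e f →
        (1 < w' → CoveredDeg (ImForms p g) D) ∧
          (0 < w' → ¬ GeneralType ℂ (coords ℂ fun i => aeval y (g i)) w') := by
  obtain ⟨D1, h1⟩ := dom_ring (p := p) hg s r e
  obtain ⟨D2, h2⟩ := dom_small (p := p) hg s r e
  obtain ⟨D3, h3⟩ := dom_per hy hg hw' s r e
  have hmono : ∀ D : ℕ, D ≤ max D1 (max D2 D3) → CoveredDeg (ImForms p g) D →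
      CoveredDeg (ImForms p g) (max D1 (max D2 D3)) := fun D hD hC G hG hR =>
    hC G hG fun P hP => hR P fun j => (hP j).trans hD
  refine ⟨max D1 (max D2 D3), fun Ω hΩ hΩc M hM f hf hp => ?_, fun f hf hp h hh hnc hE => ?_,
    fun L f hf hp hE => ⟨fun hw => ?_, (h3 L f hf hp hE).2⟩⟩
  · rcases h1 Ω hΩ hΩc M hM f hf hp with h4 | h4
    · exact Or.inl (hmono _ (le_max_left _ _) h4)
    · exact Or.inr fun u v => (h4 u v).mono (hM.const 0) (le_max_left _ _)
  · exact hmono _ ((le_max_left _ _).trans (le_max_right _ _)) (h2 f hf hp h hh hnc hE)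
  · exact hmono _ ((le_max_right _ _).trans (le_max_right _ _)) ((h3 L f hf hp hE).1 hw)

end Pool.Agent.Results.MP_1209e6_ag.DominatedSmall
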