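import Mathlib
import Pool.Agent.Q13.FE.FibT

/-!
# Entire curves given by nonlinear functional equations are not dense in non-special varieties

Campana's analytic conjecture: a projective variety `X` with a Zariski-dense entire curve is
special, i.e., there is no fibration of general type on `X`.

Let `X` be a complex projective variety with a fibration of general type, and let `f` be an entire
curve in `X` which is given by nonlinear functional equations with respect to an entire function
`σ` (`FunctionalCurve`): `σ` is not constant and no iterate of `σ` is the identity; there are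
meromorphic functions `u_1, …, u_n` on the plane such that the `u_i(σ(z))` are rational functions of
`u_1(z), …, u_n(z)` with constant coefficients, and the curve has homogeneous coordinates which are
polynomials in `u_1, …, u_n`. For instance, `u` can be an entire curve in an arbitrary variety `V`
with `u(λ z) = T(u(z))` for a rational map `T` of `V` to itself (curves of Poincaré; `λ` is neither
zero nor a root of unity), and `f` the image of `u` under a rational map of `V` to `X`.

The result: if `σ` is not a translation, then `f` is not Zariski-dense in `X`. If `f` is given by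
such equations with respect to the translations by two complex numbers `b`, `b'` whose quotient is
real and irrational, then `f` is not Zariski-dense.
-/

set_option autoImplicit false

namespace Pool.Agent.Results.MP_1209e6_ag.FunctionalSpecial

open Filter MvPolynomial
open scoped LinearAlgebra.Projectivization
open Pool.Agent.TH143.EL (HolMap InV Rep)
open Pool.Agent.TH143.GT (FunField)
open Pool.Agent.W602.GT (IsForm)
open Pool.Agent.Y189.DC (NCE)
open Pool.Agent.Q13.NS (FibGT)
open Pool.Agent.Q13.FE (NBase fib_trans)

variable {N : ℕ}

/-- The entire curve `f` is given by nonlinear functional equations with respect to `σ`: Here `σ` is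
a nonconstant entire function (`NCE σ`), no iterate `σ^k`, `k > 0`, of which is the identity. There
is a finite set `U` of meromorphic functions on the plane whose compositions with `σ` are rational
functions over `ℂ` of the functions in `U` (`NBase σ U`), and the curve has homogeneous coordinates
`h j` which are polynomials over `ℂ` in the functions in `U`. -/
def FunctionalCurve (σ : ℂ → ℂ) (f : ℂ → ℙ ℂ (Fin (N + 1) → ℂ)) : Prop :=
  NCE σ ∧ (∀ k, 0 < k → ∃ z, σ^[k] z ≠ z) ∧ ∃ U : Set (ℂ → ℂ), NBase σ U ∧
    ∃ h : Fin (N + 1) → ℂ → ℂ, (∀ j, h j ∈ Algebra.adjoin ℂ U) ∧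
      ∀ᶠ z in codiscrete ℂ, Rep (f z) fun j => h j z

/-- The ideal `p` defines an integral projective variety with a fibration of general type; `F` is
its function field and `y` its generic point. -/
def HasFibGT (p : Ideal (MvPolynomial (Fin (N + 1)) ℂ)) : Prop :=
  ∃ (F : Type) (_ : Field F) (_ : Algebra ℂ F) (w : ℕ) (y : Fin (N + 1) → F),
    FunField p 1 F w y ∧ FibGT w (fun _ : FF.Place ℂ F => False)

/-- The curve `f` lies on a hypersurface which does not contain the variety of `p`. -/
def NotDense (p : Ideal (MvPolynomial (Fin (N + 1)) ℂ)) (f : ℂ → ℙ ℂ (Fin (N + 1) → ℂ)) : Prop :=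
  ∃ G : MvPolynomial (Fin (N + 1)) ℂ, IsForm G ∧ G ∉ p ∧ ∀ z, InV (Ideal.span {G}) (f z)

/-- Let `X` be a projective variety with a fibration of general type, and `f` an entire curve in `X`
which is given by nonlinear functional equations with respect to `σ` and also with respect to `σ'`
(for instance, `σ' = σ`). If `f` is Zariski-dense in `X`, then `σ` and `σ'` are translations by
nonzero numbers `b` and `b'`, which are linearly independent over the reals or linearly dependent
over the rational numbers. -/
theorem result (p : Ideal (MvPolynomial (Fin (N + 1)) ℂ)) (hX : HasFibGT p)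
    (f : ℂ → ℙ ℂ (Fin (N + 1) → ℂ)) (hf : HolMap f) (hfX : ∀ z, InV p (f z)) (σ σ' : ℂ → ℂ)
    (hσ : FunctionalCurve σ f) (hσ' : FunctionalCurve σ' f) :
    NotDense p f ∨ ∃ b b' : ℂ, b ≠ 0 ∧ b' ≠ 0 ∧ (∀ z, σ z = z + b) ∧ (∀ z, σ' z = z + b') ∧
      (LinearIndependent ℝ ![b, b'] ∨ ∃ r : ℚ, b' = r * b) := by
  obtain ⟨F, _, _, w, y, hy, hGT⟩ := hX
  obtain ⟨hn, hinf, U, hU, h, hh, hr⟩ := hσ
  obtain ⟨hn', hinf', U', hU', h', hh', hr'⟩ := hσ'
  by_cases hd : NotDense p f
  · exact Or.inl hd
  right
  refine fib_trans hy hGT hf hfX (fun G hG h0 => ?_) hn hinf hU hn' hinf' hU' hh hr hh' hr'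
  by_contra hGp
  exact hd ⟨G, hG, hGp, h0⟩

end Pool.Agent.Results.MP_1209e6_ag.FunctionalSpecial
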