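import Pool.Agent.Q1.FB.ImgC

set_option autoImplicit false

/-!
# Entire curves and rational maps to varieties which are not uniruled

Let `X` be the integral closed subvariety of complex projective `n`-space given by the forms in `FF`,
and let `g = (g_0, ..., g_m)` be a rational map from `X` to projective `m`-space, given by forms of
degree `δ`.  Suppose that the closure `Y` of the image of `X`, whose ideal is
`imgI (Ideal.span FF) g`, is not uniruled (for example, a variety of nonnegative Kodaira dimension).
There is no hypothesis on `X` itself and on the fibres of `g`: there can be many Zariski dense entire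
curves in the fibres.

We consider the holomorphic curves `f` in `X`, on connected open sets `Ω` of the complex plane
(entire curves for `Ω = ℂ`), given by iterated linear differential equations of complexity `(s, r, e)`
(`DVec Ω s r e f`): the coordinates of `f` are values of polynomials of degree at most `e` in each
variable at the entries of `X_1, X_1⁻¹, ..., X_s, X_s⁻¹`, where the `X_l` are invertible matrices of
size `r` of analytic functions with `X_l' = M_l X_l` and the entries of `M_l` are values of such
polynomials at the entries of `X_i, X_i⁻¹`, `i < l`.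

Then for all `s`, `r`, `e` there is ONE proper closed subset `X ∩ {G = 0}` of `X` such that ALL curves
of complexity `(s, r, e)` in `X`, on all `Ω`, lie in `X ∩ {G = 0}` or in a fibre of `g`: a curve `f`
with nonconstant `g ∘ f` lies in `G = 0`.  In particular, if `X` has a Zariski dense entire curve of
this kind, then all varieties of positive dimension dominated by `X` are uniruled.
-/

namespace Pool.Agent.Results.MP_1209e6_ag.ImagesOfEntireCurves

open MvPolynomial Pool.Agent.Q1.SL Pool.Agent.Q1.FB Pool.Agent.H533R3.SL

theorem result (n m : ℕ) (FF : Set (MvPolynomial (Fin (n + 1)) ℂ))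
    (hhom : ∀ F ∈ FF, ∃ e, F.IsHomogeneous e) (hprime : (Ideal.span FF).IsPrime)
    (g : Fin (m + 1) → MvPolynomial (Fin (n + 1)) ℂ) (δ : ℕ) (hδ : 0 < δ)
    (hg : ∀ j, (g j).IsHomogeneous δ) (hnu : ¬ Uniruled (imgI (Ideal.span FF) g)) (s r e : ℕ) :
    ∃ G : MvPolynomial (Fin (n + 1)) ℂ, (∃ d, G.IsHomogeneous d) ∧ G ∉ Ideal.span FF ∧
      ∀ Ω : Set ℂ, IsOpen Ω → IsPreconnected Ω → ∀ f : ℂ → Fin (n + 1) → ℂ, DVec Ω s r e f →
        (∀ z ∈ Ω, ∀ F ∈ FF, eval (f z) F = 0) →
        (∃ z ∈ Ω, ∃ w ∈ Ω, ∃ i j, eval (f z) (g i) * eval (f w) (g j) ≠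
          eval (f z) (g j) * eval (f w) (g i)) → ∀ z ∈ Ω, eval (f z) G = 0 :=
  img_curves FF hhom hprime g hδ hg hnu s r e

end Pool.Agent.Results.MP_1209e6_ag.ImagesOfEntireCurves
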